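import Pool.Agent.H84.Sym.Defs2
import Pool.Agent.H91.Sym.A2

/-! Module P4a of project SYM2: continuity and differentiability of partial integrals. -/

set_option autoImplicit false

open MeasureTheory Set Filter Topology
open scoped ContDiff Pointwise

namespace Pool.Agent.H84.Sym

open Pool.Agent.H84

universe v

variable {E : Type v} [NormedAddCommGroup E] [InnerProductSpace ℝ E]
    [FiniteDimensional ℝ E] [MeasurableSpace E] [BorelSpace E]

namespace P4aAux

omit [FiniteDimensional ℝ E] [MeasurableSpace E] [BorelSpace E] in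
theorem dom {U : E → ℝ} {t C : ℝ} (hU : Pot U t C) (A B : ℝ) (hA : 0 ≤ A) :
    ∃ M : ℝ, 0 ≤ M ∧ ∀ (y : E) (r : ℝ), r ≤ A * Real.exp (B * ‖y‖) →
      r * Real.exp (-U y) ≤ M * Real.exp (-(t / 4) * ‖y‖ ^ 2) := by
  have ht := hU.pos
  set G := ‖fderiv ℝ U 0‖ with hG
  refine ⟨A * Real.exp (-U 0 + (|B| + G) ^ 2 / t), by positivity, fun y r hr => ?_⟩
  have hl := pot_lower hU y
  have hl2 : -(G * ‖y‖) ≤ fderiv ℝ U 0 y := by
    have := (fderiv ℝ U 0).le_opNorm y
    have h2 := neg_abs_le (fderiv ℝ U 0 y)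
    rw [Real.norm_eq_abs] at this
    linarith
  have hBx : B * ‖y‖ ≤ |B| * ‖y‖ := mul_le_mul_of_nonneg_right (le_abs_self _) (norm_nonneg _)
  have hsq : (|B| + G) * ‖y‖ ≤ t / 4 * ‖y‖ ^ 2 + (|B| + G) ^ 2 / t := by
    have h1 : 0 ≤ (t / 2 * ‖y‖ - (|B| + G)) ^ 2 / t := by positivity
    have h2 : (t / 2 * ‖y‖ - (|B| + G)) ^ 2 / t =
        t / 4 * ‖y‖ ^ 2 + (|B| + G) ^ 2 / t - (|B| + G) * ‖y‖ := by
      field_simp
      ring
    linarith
  calc r * Real.exp (-U y) ≤ (A * Real.exp (B * ‖y‖)) * Real.exp (-U y) :=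
        mul_le_mul_of_nonneg_right hr (Real.exp_pos _).le
    _ = A * Real.exp (-U y + B * ‖y‖) := by rw [Real.exp_add]; ring
    _ ≤ A * Real.exp ((-U 0 + (|B| + G) ^ 2 / t) + (-(t / 4) * ‖y‖ ^ 2)) := by
        apply mul_le_mul_of_nonneg_left _ hA
        apply Real.exp_le_exp.2
        nlinarith
    _ = A * Real.exp (-U 0 + (|B| + G) ^ 2 / t) * Real.exp (-(t / 4) * ‖y‖ ^ 2) := by
        rw [Real.exp_add]; ring

omit [FiniteDimensional ℝ E] [MeasurableSpace E] [BorelSpace E] in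
theorem norm_split (S : Submodule ℝ E) (x : S) (z : Sᗮ) :
    ‖(x : E) + (z : E)‖ ^ 2 = ‖x‖ ^ 2 + ‖z‖ ^ 2 := by
  have h : inner ℝ (x : E) (z : E) = 0 := Submodule.inner_right_of_mem_orthogonal x.2 z.2
  rw [norm_add_sq_real, h]
  simp

omit [FiniteDimensional ℝ E] [MeasurableSpace E] [BorelSpace E] in
theorem gr_const_nonneg {H : Type*} [NormedAddCommGroup H] {F : H → ℝ} (hg : Gr F) :
    ∃ A B : ℝ, 0 ≤ A ∧ ∀ x, |F x| ≤ A * Real.exp (B * ‖x‖) := by
  obtain ⟨A, B, h⟩ := hg
  refine ⟨A, B, ?_, h⟩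
  have := (abs_nonneg _).trans (h 0)
  simpa using this

omit [FiniteDimensional ℝ E] [MeasurableSpace E] [BorelSpace E] in
theorem dom_sec (S : Submodule ℝ E) {U : E → ℝ} {t C : ℝ} (hU : Pot U t C) (A B : ℝ)
    (hA : 0 ≤ A) :
    ∃ M : ℝ, 0 ≤ M ∧ ∀ (x : S) (z : Sᗮ) (r : ℝ),
      r ≤ A * Real.exp (B * ‖(x : E) + (z : E)‖) →
      r * Real.exp (-U ((x : E) + (z : E))) ≤ M * Real.exp (-(t / 4) * ‖x‖ ^ 2) := by
  obtain ⟨M, hM, h⟩ := dom hU A B hA
  refine ⟨M, hM, fun x z r hr => (h _ r hr).trans ?_⟩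
  apply mul_le_mul_of_nonneg_left _ hM
  apply Real.exp_le_exp.2
  have ht := hU.pos
  have h1 := norm_split S x z
  have h2 : ‖x‖ ^ 2 ≤ ‖(x : E) + (z : E)‖ ^ 2 := by rw [h1]; nlinarith [sq_nonneg ‖z‖]
  nlinarith

/-- Continuity of vector valued partial integrals. -/
theorem cont_gen (S : Submodule ℝ E) {U : E → ℝ} {t C : ℝ} (hU : Pot U t C)
    {H : Type*} [NormedAddCommGroup H] [NormedSpace ℝ H] {F : E → H} (hF : Continuous F)
    {A B : ℝ} (hA : 0 ≤ A) (hg : ∀ x, ‖F x‖ ≤ A * Real.exp (B * ‖x‖)) :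
    Continuous (fun z : Sᗮ => ∫ x : S, Real.exp (-U ((x : E) + (z : E))) • F ((x : E) + (z : E))) ∧
    ∀ z : Sᗮ, Integrable (fun x : S => Real.exp (-U ((x : E) + (z : E))) •
      F ((x : E) + (z : E))) := by
  have ht := hU.pos
  have hUc : Continuous U := hU.smooth.continuous
  obtain ⟨M, hM, h⟩ := dom_sec S hU A B hA
  have hi : Integrable (fun x : S => M * Real.exp (-(t / 4) * ‖x‖ ^ 2)) :=
    (integrable_gauss (by positivity)).const_mul M
  have hb : ∀ (z : Sᗮ) (x : S), ‖Real.exp (-U ((x : E) + (z : E))) • F ((x : E) + (z : E))‖ ≤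
      M * Real.exp (-(t / 4) * ‖x‖ ^ 2) := by
    intro z x
    rw [norm_smul, Real.norm_eq_abs, abs_of_pos (Real.exp_pos _), mul_comm]
    exact h x z _ (hg _)
  have hmeas : ∀ z : Sᗮ, Continuous (fun x : S => Real.exp (-U ((x : E) + (z : E))) •
      F ((x : E) + (z : E))) := by
    intro z
    have h1 : Continuous (fun x : S => (x : E) + (z : E)) := by fun_prop
    exact (Real.continuous_exp.comp (hUc.comp h1).neg).smul (hF.comp h1)
  refine ⟨?_, fun z => hi.mono' (hmeas z).aestronglyMeasurable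
    (Eventually.of_forall fun x => hb z x)⟩
  apply continuous_of_dominated (bound := fun x : S => M * Real.exp (-(t / 4) * ‖x‖ ^ 2))
  · exact fun z => (hmeas z).aestronglyMeasurable
  · exact fun z => Eventually.of_forall fun x => hb z x
  · exact hi
  · refine Eventually.of_forall fun x => ?_
    have h1 : Continuous (fun z : Sᗮ => (x : E) + (z : E)) := by fun_prop
    exact (Real.continuous_exp.comp (hUc.comp h1).neg).smul (hF.comp h1)

end P4aAux

open P4aAux

theorem cont_pint (S : Submodule ℝ E) {U F : E → ℝ} {t C : ℝ} (hU : Pot U t C)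
    (hF : Continuous F) (hg : Gr F) : Continuous (pint S U F) := by
  obtain ⟨A, B, hA, h⟩ := gr_const_nonneg hg
  have h1 := (cont_gen S hU hF hA (B := B) (fun x => by rw [Real.norm_eq_abs]; exact h x)).1
  refine h1.congr fun z => ?_
  unfold pint
  refine integral_congr_ae (Eventually.of_forall fun x => ?_)
  simp only [smul_eq_mul]
  ring

theorem diff_pint (S : Submodule ℝ E) {U F : E → ℝ} {t C : ℝ} (hU : Pot U t C)
    (hF : ContDiff ℝ 1 F) (hg : Gr F) (hg' : Gr (fun x => ‖fderiv ℝ F x‖)) :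
    ContDiff ℝ 1 (pint S U F) ∧ ∀ (z ν : Sᗮ), D ν (pint S U F) z =
      pint S U (fun x => D (ν : E) F x - F x * D (ν : E) U x) z := by
  have ht := hU.pos
  have hUc : Continuous U := hU.smooth.continuous
  have hU1 : ContDiff ℝ 1 U := hU.smooth.of_le (by norm_num)
  obtain ⟨A, B, hA, h⟩ := gr_const_nonneg hg
  obtain ⟨A', B', hA', h'⟩ := gr_const_nonneg hg'
  -- the derivative of the integrand
  set F' : E → (E →L[ℝ] ℝ) := fun y => fderiv ℝ F y - F y • fderiv ℝ U y with hF'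
  have hF'c : Continuous F' :=
    (hF.continuous_fderiv (by norm_num)).sub (hF.continuous.smul (hU1.continuous_fderiv (by norm_num)))
  have hC : 0 ≤ C := by
    have := (norm_nonneg _).trans (hU.grad 0)
    simpa using this
  have hgF' : ∀ y, ‖F' y‖ ≤ (A' + A * C) * Real.exp ((|B'| + |B| + 1) * ‖y‖) := by
    intro y
    have e1 : ‖F' y‖ ≤ ‖fderiv ℝ F y‖ + |F y| * ‖fderiv ℝ U y‖ := by
      refine (norm_sub_le _ _).trans ?_
      rw [norm_smul, Real.norm_eq_abs]
    have e2 : ‖fderiv ℝ F y‖ ≤ A' * Real.exp ((|B'| + |B| + 1) * ‖y‖) := by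
      have := h' y
      rw [abs_of_nonneg (norm_nonneg _)] at this
      refine this.trans (mul_le_mul_of_nonneg_left (Real.exp_le_exp.2 ?_) hA')
      apply mul_le_mul_of_nonneg_right _ (norm_nonneg _)
      have := le_abs_self B'
      have := abs_nonneg B
      linarith
    have e3 : |F y| * ‖fderiv ℝ U y‖ ≤ A * C * Real.exp ((|B'| + |B| + 1) * ‖y‖) := by
      have f1 : |F y| * ‖fderiv ℝ U y‖ ≤ (A * Real.exp (B * ‖y‖)) * (C * (1 + ‖y‖)) :=
        mul_le_mul (h y) (hU.grad y) (norm_nonneg _) (by positivity)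
      have f2 : 1 + ‖y‖ ≤ Real.exp ‖y‖ := by
        have := Real.add_one_le_exp ‖y‖
        linarith
      have f3 : Real.exp (B * ‖y‖) * Real.exp ‖y‖ ≤ Real.exp ((|B'| + |B| + 1) * ‖y‖) := by
        rw [← Real.exp_add]
        apply Real.exp_le_exp.2
        have h1 : B * ‖y‖ + ‖y‖ = (B + 1) * ‖y‖ := by ring
        rw [h1]
        apply mul_le_mul_of_nonneg_right _ (norm_nonneg _)
        have := le_abs_self B
        have := abs_nonneg B'
        linarith
      calc |F y| * ‖fderiv ℝ U y‖ ≤ (A * Real.exp (B * ‖y‖)) * (C * (1 + ‖y‖)) := f1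
        _ ≤ (A * Real.exp (B * ‖y‖)) * (C * Real.exp ‖y‖) := by gcongr
        _ = A * C * (Real.exp (B * ‖y‖) * Real.exp ‖y‖) := by ring
        _ ≤ A * C * Real.exp ((|B'| + |B| + 1) * ‖y‖) := by gcongr
    calc ‖F' y‖ ≤ _ := e1
      _ ≤ A' * Real.exp ((|B'| + |B| + 1) * ‖y‖) + A * C * Real.exp ((|B'| + |B| + 1) * ‖y‖) :=
        add_le_add e2 e3
      _ = _ := by ring
  -- restrict to the orthogonal complement
  set L : (E →L[ℝ] ℝ) →L[ℝ] (Sᗮ →L[ℝ] ℝ) :=
    (ContinuousLinearMap.compL ℝ Sᗮ E ℝ).flip (Sᗮ.subtypeL) with hL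
  have hLle : ∀ ℓ : E →L[ℝ] ℝ, ‖L ℓ‖ ≤ ‖ℓ‖ := by
    intro ℓ
    apply ContinuousLinearMap.opNorm_le_bound _ (norm_nonneg _)
    intro v
    exact ℓ.le_opNorm (v : E)
  set K : E → (Sᗮ →L[ℝ] ℝ) := fun y => L (F' y) with hK
  have hKc : Continuous K := L.continuous.comp hF'c
  have hgK : ∀ y, ‖K y‖ ≤ (A' + A * C) * Real.exp ((|B'| + |B| + 1) * ‖y‖) :=
    fun y => (hLle _).trans (hgF' y)
  have hAA : 0 ≤ A' + A * C := by positivity
  obtain ⟨hc, hint⟩ := cont_gen (H := Sᗮ →L[ℝ] ℝ) (F := K) S hU hKc (A := A' + A * C)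
    (B := |B'| + |B| + 1) hAA hgK
  obtain ⟨-, hint0⟩ := cont_gen S hU hF.continuous hA (B := B)
    (fun x => by rw [Real.norm_eq_abs]; exact h x)
  obtain ⟨M, hM, hdom⟩ := dom_sec S hU (A' + A * C) (|B'| + |B| + 1) (by positivity)
  have hi : Integrable (fun x : S => M * Real.exp (-(t / 4) * ‖x‖ ^ 2)) :=
    (integrable_gauss (by positivity)).const_mul M
  have hder : ∀ z : Sᗮ, HasFDerivAt (fun z : Sᗮ =>
      ∫ x : S, F ((x : E) + (z : E)) * Real.exp (-U ((x : E) + (z : E))))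
      (∫ x : S, Real.exp (-U ((x : E) + (z : E))) • K ((x : E) + (z : E))) z := by
    intro z
    apply hasFDerivAt_integral_of_dominated_of_fderiv_le (s := univ)
      (F := fun (z : Sᗮ) (x : S) => F ((x : E) + (z : E)) * Real.exp (-U ((x : E) + (z : E))))
      (F' := fun (z : Sᗮ) (x : S) => Real.exp (-U ((x : E) + (z : E))) • K ((x : E) + (z : E)))
      (bound := fun x : S => M * Real.exp (-(t / 4) * ‖x‖ ^ 2))
    · exact univ_mem
    · refine Eventually.of_forall fun z => Continuous.aestronglyMeasurable ?_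
      have h1 : Continuous (fun x : S => (x : E) + (z : E)) := by fun_prop
      exact (hF.continuous.comp h1).mul (Real.continuous_exp.comp (hUc.comp h1).neg)
    · refine (hint0 z).congr (Eventually.of_forall fun x => ?_)
      simp only [smul_eq_mul]
      ring
    · exact (hint z).aestronglyMeasurable
    · refine Eventually.of_forall fun x z _ => ?_
      rw [norm_smul, Real.norm_eq_abs, abs_of_pos (Real.exp_pos _), mul_comm]
      exact hdom x z _ (hgK _)
    · exact hi
    · refine Eventually.of_forall fun x z _ => ?_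
      have h1 : HasFDerivAt (fun z : Sᗮ => (x : E) + (z : E)) (Sᗮ.subtypeL) z :=
        (Sᗮ.subtypeL.hasFDerivAt (x := z)).const_add (x : E)
      have h2 : HasFDerivAt F (fderiv ℝ F ((x : E) + (z : E))) ((x : E) + (z : E)) :=
        (hF.differentiable (by norm_num) _).hasFDerivAt
      have h3 : HasFDerivAt U (fderiv ℝ U ((x : E) + (z : E))) ((x : E) + (z : E)) :=
        (hU1.differentiable (by norm_num) _).hasFDerivAt
      have h4 : HasFDerivAt (fun y => F y * Real.exp (-U y))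
          (Real.exp (-U ((x : E) + (z : E))) • F' ((x : E) + (z : E))) ((x : E) + (z : E)) := by
        have h5 := h2.mul (h3.neg.exp)
        refine h5.congr_fderiv ?_
        ext v
        simp only [hF', add_apply, smul_apply, neg_apply, sub_apply, smul_eq_mul, Pi.neg_apply]
        ring
      have h6 := h4.comp z h1
      refine h6.congr_fderiv ?_
      ext v
      rfl
  have hfd : fderiv ℝ (pint S U F) = fun z : Sᗮ =>
      ∫ x : S, Real.exp (-U ((x : E) + (z : E))) • K ((x : E) + (z : E)) :=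
    funext fun z => (hder z).fderiv
  refine ⟨?_, fun z ν => ?_⟩
  · rw [contDiff_one_iff_fderiv]
    refine ⟨fun z => (hder z).differentiableAt, ?_⟩
    rw [hfd]
    exact hc
  · unfold D
    rw [hfd, ContinuousLinearMap.integral_apply (hint z)]
    unfold pint
    refine integral_congr_ae (Eventually.of_forall fun x => ?_)
    simp only [hK, hL, hF', smul_apply, smul_eq_mul]
    change Real.exp _ * ((fderiv ℝ F _ - F _ • fderiv ℝ U _) (ν : E)) = _
    simp only [sub_apply, smul_apply, smul_eq_mul]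
    ring

end Pool.Agent.H84.Sym
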